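import Pool.Agent.Lib.MP_a37f0b_ag.PS.W
import Pool.Agent.Lib.MP_a37f0b_ag.Q4.Fin
import Mathlib.RingTheory.RegularLocalRing.Polynomial

/-! The question of Nori and Rao for power series rings over a base of small dimension. -/

open IsLocalRing MvPowerSeries

namespace Pool.Agent.Lib.MP_a37f0b_ag.PS

variable {B : Type} [CommRing B] {σ : Type}

variable (σ) in
/-- Series with coefficients in an ideal. -/
noncomputable def K (I : Ideal B) : Ideal (MvPowerSeries σ B) :=
  RingHom.ker (map (Ideal.Quotient.mk I))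

theorem mem_K {I : Ideal B} {f : MvPowerSeries σ B} : f ∈ K σ I ↔ ∀ d, coeff d f ∈ I := by
  simp only [K, RingHom.mem_ker, MvPowerSeries.ext_iff, coeff_map, map_zero,
    Ideal.Quotient.eq_zero_iff_mem]

theorem C_mem_K {I : Ideal B} {b : B} : C b ∈ K σ I ↔ b ∈ I := by
  rw [K, RingHom.mem_ker, map_C, ← Ideal.Quotient.eq_zero_iff_mem]
  exact ⟨fun h => by simpa using congrArg constantCoeff h, fun h => by rw [h, map_zero]⟩

instance (I : Ideal B) [I.IsPrime] : (K σ I).IsPrime :=
  have : IsDomain (MvPowerSeries σ (B ⧸ I)) := NoZeroDivisors.to_isDomain _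
  RingHom.ker_isPrime _

theorem K_eq [IsNoetherianRing B] (I : Ideal B) : K σ I = I.map C := by
  refine le_antisymm (fun f hf => ?_) (Ideal.map_le_iff_le_comap.2 fun b hb => C_mem_K.2 hb)
  obtain ⟨m, g, hg⟩ := Submodule.fg_iff_exists_fin_generating_family.1 I.fg_of_isNoetherianRing
  choose c hc using fun d => Ideal.mem_span_range_iff_exists_fun.1 (hg.ge (mem_K.1 hf d))
  let q : Fin m → MvPowerSeries σ B := fun i d => c d i
  have : f = ∑ i, C (g i) * q i := MvPowerSeries.ext fun d => by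
    rw [map_sum, ← hc]
    exact Finset.sum_congr rfl fun i _ => by rw [coeff_C_mul, mul_comm]; rfl
  rw [this]
  exact Ideal.sum_mem _ fun i _ => Ideal.mul_mem_right _ _
    (Ideal.mem_map_of_mem _ (hg.le (Submodule.subset_span ⟨i, rfl⟩)))

theorem height_K (p : Ideal B) [p.IsPrime] : p.height ≤ (K σ p).height := by
  let f : PrimeSpectrum B → PrimeSpectrum (MvPowerSeries σ B) := fun q => ⟨K σ q.1, inferInstance⟩
  have hf : StrictMono f := fun q q' h => lt_iff_le_not_ge.2
    ⟨fun g hg => mem_K.2 fun d => h.le (mem_K.1 hg d),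
      fun h' => h.not_ge fun b hb => C_mem_K.1 (h' (C_mem_K.2 hb))⟩
  exact (PrimeSpectrum.height_eq_orderHeight ⟨p, ‹_›⟩).trans_le
    ((Order.height_le_height_apply_of_strictMono f hf _).trans_eq
      (PrimeSpectrum.height_eq_orderHeight _).symm)

variable [IsRegularLocalRing B] [Finite σ]

variable (σ B) in
/-- The local ring at the generic point of the closed fibre. -/
abbrev G := Localization.AtPrime (K σ (maximalIdeal B))

omit [Finite σ] in
theorem max_G : maximalIdeal (G B σ) =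
    (maximalIdeal B).map ((algebraMap (MvPowerSeries σ B) (G B σ)).comp C) := by
  rw [← Ideal.map_map, ← K_eq, Localization.AtPrime.map_eq_maximalIdeal]

omit [Finite σ] in
theorem rank_G : ((maximalIdeal (G B σ)).spanFinrank : WithBot ℕ∞) ≤ ringKrullDim B := by
  rw [← IsRegularLocalRing.spanFinrank_maximalIdeal, max_G, Nat.cast_le]
  exact Ideal.spanFinrank_map_le_of_fg _ (maximalIdeal B).fg_of_isNoetherianRing

instance : IsRegularLocalRing (G B σ) := by
  refine .of_spanFinrank_maximalIdeal_le _ (rank_G.trans ?_)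
  rw [IsLocalization.AtPrime.ringKrullDim_eq_height (K σ (maximalIdeal B)) (G B σ),
    ← maximalIdeal_height_eq_ringKrullDim, WithBot.coe_le_coe]
  exact height_K _

theorem dim_G : ringKrullDim (G B σ) ≤ ringKrullDim B :=
  IsRegularLocalRing.spanFinrank_maximalIdeal.ge.trans rank_G

theorem par_G {t : ℕ} {r : Fin t → B} (h : Q4.Par r) :
    Q4.Par fun i => algebraMap (MvPowerSeries σ B) (G B σ) (C (r i)) := by
  refine ⟨fun i => max_G (B := B) (σ := σ) ▸ Ideal.mem_map_of_mem
    ((algebraMap (MvPowerSeries σ B) (G B σ)).comp C) (h.1 i), fun a ha i => ?_⟩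
  obtain ⟨s, hs⟩ := IsLocalization.exist_integer_multiples_of_finite
    (K σ (maximalIdeal B)).primeCompl a
  choose b hb using hs
  simp only [Algebra.smul_def] at hb
  have h1 : algebraMap _ (G B σ) (∑ i, b i * C (r i)) ∈ maximalIdeal (G B σ) ^ 2 := by
    simp only [map_sum, map_mul, hb, mul_assoc, ← Finset.mul_sum]
    exact Ideal.mul_mem_left _ _ ha
  rw [max_G, ← Ideal.map_pow, ← Ideal.map_map, ← K_eq,
    IsLocalization.algebraMap_mem_map_algebraMap_iff (K σ (maximalIdeal B)).primeCompl] at h1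
  obtain ⟨u, hu, h1⟩ := h1
  have h2 : u * b i ∈ K σ (maximalIdeal B) := mem_K.2 fun d => h.2 (fun i => coeff d (u * b i)) (by
    simpa only [Finset.mul_sum, ← mul_assoc, map_sum, coeff_mul_C] using mem_K.1 h1 d) i
  have h3 := (IsLocalization.AtPrime.to_map_mem_maximal_iff (G B σ) _ _).2
    ((Ideal.IsPrime.mem_or_mem inferInstance h2).resolve_left hu)
  rwa [hb, Ideal.unit_mul_mem_iff_mem _ (IsLocalization.map_units _ s)] at h3

theorem allFree_of {A : Type} [CommRing A] (h : Q4.AF A) : AllFree A := fun ι _ e he => by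
  classical
  have h1 : IsIdempotentElem (Matrix.toLin' e) := by
    rw [IsIdempotentElem, Module.End.mul_eq_comp, ← Matrix.toLin'_mul, he]
  have : Module.Projective A (LinearMap.range (Matrix.toLin' e)) :=
    .of_split (LinearMap.range (Matrix.toLin' e)).subtype (Matrix.toLin' e).rangeRestrict
      (LinearMap.ext fun ⟨_, x, rfl⟩ => Subtype.ext (LinearMap.congr_fun h1.eq x))
  have := h (LinearMap.range (Matrix.toLin' e))
  rcases subsingleton_or_nontrivial A with _ | _
  · exact ⟨0, 0, 0, Subsingleton.elim _ _, Subsingleton.elim _ _⟩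
  exact free_of_range he (Module.finBasis A _)

section bq

open Polynomial

theorem AllFree.of_poly {A : Type} [CommRing A] (h : AllFree A[X]) : AllFree A := fun ι _ e he => by
  have := (h ι _ (idem_map he Polynomial.C)).map (evalRingHom 0)
  rwa [map_comp', show (evalRingHom (0 : A)).comp Polynomial.C = RingHom.id A by ext; simp] at this

theorem rs_gen {A : Type} [CommRing A] {m J : Ideal A} {d : ℕ} (h : Pop.RS m J d) :
    ∃ s : Finset A, s.card ≤ d ∧ m = J ⊔ Ideal.span s := by
  classical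
  induction h with
  | zero => exact ⟨∅, le_rfl, by simp⟩
  | succ J d x _ _ _ ih =>
    obtain ⟨s, h1, h2⟩ := ih
    refine ⟨insert x s, (Finset.card_insert_le _ _).trans (Nat.succ_le_succ h1), ?_⟩
    rw [h2, Finset.coe_insert, Ideal.span_insert, sup_assoc]

/-- Local rings of a regular local ring are regular. -/
theorem reg_loc {D : Type} [CommRing D] [IsLocalRing D] {φ : B →+* D} {M : Submonoid B}
    (h : IsLoc φ M) : IsRegularLocalRing D := by
  have := h.noeth
  obtain ⟨n, hn⟩ := Pop.reg_rs (R := B)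
  have h1 := Pop.pd_loc (ι := φ) (T := M) ⟨h.unit, h.surj, fun a ha =>
    ⟨1, one_mem _, by rw [h.inj (ha.trans (map_zero φ).symm), mul_zero]⟩⟩
    (Pop.pd_all (hn.pd Pop.pd_bot) ((maximalIdeal D).comap φ))
  have h2 : ((maximalIdeal D).comap φ).map φ = maximalIdeal D :=
    letI := φ.toAlgebra
    haveI := h.alg
    IsLocalization.map_under M D _
  rw [h2] at h1
  obtain ⟨d, hd⟩ := Pop.rs_of_pd _ _ h1
  obtain ⟨s, h3, h4⟩ := rs_gen hd
  refine .of_spanFinrank_maximalIdeal_le _ ?_
  rw [Q4.hom_dim' hd, h4, bot_sup_eq, Nat.cast_le]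
  exact (Submodule.spanFinrank_span_le_ncard_of_finite s.finite_toSet).trans (by simpa using h3)

/-- The Bass-Quillen property in one variable in dimension at most three. -/
theorem bq3 (hd : ringKrullDim B ≤ (3 : ℕ)) : AllFree B[X] := fun ι _ e he => by
  have : IsDomain B := Pop.reg_domain
  let q := (maximalIdeal B).comap (evalRingHom (0 : B))
  have := Polynomial.isRegularLocalRing_localization_atPrime_of_comap_eq_maximalIdeal B q
    (by ext; simp [q])
  have : IsDomain (Localization.AtPrime q) := Pop.reg_domain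
  let x := algebraMap B[X] (Localization.AtPrime q) X
  have h1 : Q4.Par fun _ : Fin 1 => x := by
    refine ⟨fun _ => (IsLocalization.AtPrime.to_map_mem_maximal_iff _ q _).2 (by simp [q]),
      fun a ha i => by_contra fun h => ?_⟩
    rw [Fin.sum_univ_one, Ideal.unit_mul_mem_iff_mem _ (notMem_maximalIdeal.1
      (Subsingleton.elim i 0 ▸ h)), ← Localization.AtPrime.map_eq_maximalIdeal, ← Ideal.map_pow,
      IsLocalization.algebraMap_mem_map_algebraMap_iff q.primeCompl] at ha
    obtain ⟨u, hu, ha⟩ := ha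
    have h2 : ∀ f ∈ q * q, f.coeff 1 ∈ maximalIdeal B := fun f hf =>
      Submodule.mul_induction_on hf (fun a ha b hb => by
        simp only [q, Ideal.mem_comap, coe_evalRingHom, ← coeff_zero_eq_eval_zero] at ha hb
        rw [Polynomial.coeff_mul, Finset.Nat.antidiagonal_succ]
        simpa using add_mem (Ideal.mul_mem_right _ _ ha) (Ideal.mul_mem_left _ _ hb))
        fun a b ha hb => by simpa using add_mem ha hb
    have h3 := h2 _ (pow_two q ▸ ha)
    replace h3 : u.coeff 0 ∈ maximalIdeal B := Polynomial.coeff_mul_X u 0 ▸ h3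
    exact hu (by simpa [q, ← coeff_zero_eq_eval_zero] using h3)
  have h2 := (isLoc_loc (zero_notMem_powers h1.ne)).af (allFree_of (Q4.dim_four 1 _ _ h1 (by
    rw [IsLocalization.AtPrime.ringKrullDim_eq_height q]
    refine Ideal.height_le_ringKrullDim_of_isPrime.trans ?_
    rw [Polynomial.ringKrullDim_of_isNoetherianRing]
    exact (add_le_add_left hd 1).trans_eq (by norm_cast))))
  rw [Fin.prod_univ_one] at h2
  have h3 : AF B[X] (q.primeCompl ⊔ .powers X) :=
    h2.down (isLoc_loc fun e => e (zero_mem _)) (sup_le (fun s hs => Sat.of_unit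
      (IsLocalization.map_units _ (⟨s, hs⟩ : q.primeCompl)))
      (Submonoid.powers_le.2 (Sat.of_mem (Submonoid.mem_powers _)))) (le_sup_left.trans (le_Sat _))
      (by rintro _ ⟨k, rfl⟩; exact ⟨_, Submonoid.mem_sup_right ⟨k, rfl⟩, by simp only [map_pow]; rfl⟩)
  obtain ⟨L, _, _, ψ, hψ⟩ := exists_loc (zero_notMem_powers (X_ne_zero (R := B)))
  obtain ⟨φ, hφ, -, h4⟩ := hψ.inv
  obtain ⟨_, hm, hq⟩ := h3.qfree hψ (le_sup_right.trans (le_Sat _)) (idem_map he φ)
  obtain ⟨g, hg, s, hs, rfl⟩ := Submonoid.mem_sup.1 hm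
  obtain ⟨v, hv⟩ : IsUnit (g.coeff 0) :=
    notMem_maximalIdeal.1 fun h => hg (by simpa [q, ← coeff_zero_eq_eval_zero] using h)
  obtain ⟨_, ⟨k, rfl⟩, h5⟩ := hφ.qfree (a := Polynomial.C (↑v⁻¹ : B) * reverse g) (hq.of_dvd (by
    rw [map_mul, map_mul, ← h4, (hψ.unit s hs).mul_right_dvd,
      ((hψ.unit X (Submonoid.mem_powers _)).pow _).mul_right_dvd]
    exact dvd_mul_left _ _))
  refine horrocks he ((monic_X_pow k).mul (monic_C_mul_of_mul_leadingCoeff_eq_one ?_)) h5
  rw [reverse_leadingCoeff, trailingCoeff_eq_coeff_zero (hv ▸ v.ne_zero), ← hv, v.inv_mul]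

theorem poly_four (hd : ringKrullDim B ≤ (4 : ℕ)) {t : ℕ} {r : Fin (t + 1) → B} (h : Q4.Par r) :
    AllFree (Localization.Away (∏ i, r i))[X] := fun ι _ e he => by
  have : IsDomain B := Pop.reg_domain
  have h1 := isLoc_loc (zero_notMem_powers h.ne)
  have := h1.domain
  have h2 := Q4.dim_away (A := Localization.Away (∏ i, r i))
    (Ideal.prod_mem _ (Finset.mem_univ 0) (h.1 0)) (n := 3) hd
  refine Free.of_eqv (quillen he fun 𝔪 _ D _ _ _ φ hφ => ?_) he
    ((allFree_of (Q4.dim_four _ B r h hd) ι _ (idem_map he (evalRingHom 0))).map Polynomial.C)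
  have := reg_loc (h1.comp' hφ)
  refine bq3 ?_ ι _ (idem_map he _)
  let := φ.toAlgebra
  have : IsLocalization.AtPrime D 𝔪 := hφ.alg
  rw [IsLocalization.AtPrime.ringKrullDim_eq_height 𝔪]
  exact Ideal.height_le_ringKrullDim_of_isPrime.trans h2

end bq

variable (hd : ringKrullDim B ≤ 4) {t : ℕ} {r : Fin (t + 1) → B} (h : Q4.Par r)
include hd h

theorem generic : ∃ (D : Type) (_ : CommRing D) (φ : MvPowerSeries σ B →+* D),
    IsLoc φ ((K σ (maximalIdeal B)).primeCompl ⊔ .powers (C (∏ i, r i))) ∧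
      AllFree (Polynomial D) := by
  have : IsDomain B := Pop.reg_domain
  have : IsDomain (MvPowerSeries σ B) := NoZeroDivisors.to_isDomain _
  have : IsDomain (G B σ) := Pop.reg_domain
  have h1 := par_G (σ := σ) h
  refine ⟨_, _, _, (isLoc_loc (M := (K σ (maximalIdeal B)).primeCompl)
    fun e => e (zero_mem _)).comp (isLoc_loc (zero_notMem_powers h1.ne)) ?_ (le_sup_left.trans (le_Sat _)) ?_, poly_four (dim_G.trans hd) h1⟩
  all_goals rw [← map_prod, ← map_prod]
  · exact sup_le (fun s hs => Sat.of_unit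
      (IsLocalization.map_units _ (⟨s, hs⟩ : (K σ (maximalIdeal B)).primeCompl)))
      (Submonoid.powers_le.2 (Sat.of_mem (Submonoid.mem_powers _)))
  · rintro _ ⟨k, rfl⟩
    exact ⟨_, Submonoid.mem_sup_right ⟨k, rfl⟩, by simp only [map_pow]; rfl⟩

omit hd h [Finite σ] in
theorem coeff_ne {g : MvPowerSeries σ B} (hg : g ∈ (K σ (maximalIdeal B)).primeCompl) :
    ∃ d, residue B (coeff d g) ≠ 0 := by
  by_contra h4
  exact hg (mem_K.2 fun d => (residue_eq_zero_iff _).1 (not_not.1 (not_exists.1 h4 d)))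

omit hd [Finite σ] in
theorem C_ne : (C (∏ i, r i) : MvPowerSeries σ B) ≠ 0 := fun e =>
  h.ne (by simpa only [constantCoeff_C, map_zero] using congrArg constantCoeff e)

variable [IsAdicComplete (maximalIdeal B) B]

theorem poly_mv {n : ℕ} {L : Type} [CommRing L] {φ : MvPowerSeries (Fin n) B →+* L}
    (hφ : IsLoc φ (.powers (C (∏ i, r i)))) : AllFree (Polynomial L) := fun ι _ e he => by
  have : IsDomain B := Pop.reg_domain
  have : ∀ n, IsDomain (MvPowerSeries (Fin n) B) := fun _ => NoZeroDivisors.to_isDomain _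
  have := hφ.domain
  obtain ⟨D, _, ψ, h1, h2⟩ := generic (σ := Fin n) hd h
  obtain ⟨_, ⟨_, hm, rfl⟩, hq⟩ := (h1.poly.af h2).qfree hφ.poly
    ((Submonoid.monotone_map le_sup_right).trans (le_Sat _)) he
  obtain ⟨g, hg, s, hs, rfl⟩ := Submonoid.mem_sup.1 hm
  rw [Polynomial.coe_mapRingHom, Polynomial.map_C, map_mul] at hq
  rcases n with _ | n
  · obtain ⟨d, hd⟩ := coeff_ne hg
    rw [Subsingleton.elim d 0, residue_ne_zero_iff_isUnit] at hd
    exact hq.free ((((isUnit_iff_constantCoeff.2 hd).map φ).mul (hφ.unit s hs)).map _)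
  obtain ⟨A, _, _, α, hα⟩ := exists_loc (zero_notMem_powers (C_ne (σ := Fin n) h))
  obtain ⟨j, F, h3, h4, h5, -⟩ := data hφ hα (coeff_ne hg)
  exact free_poly h3 h4 he (hq.of_dvd (map_dvd _ ((hφ.unit s hs).mul_right_dvd.2 h5)))

theorem main (n k : ℕ) :
    AllFree (Localization.Away (C (∏ i, r i) * X 0 ^ k : MvPowerSeries (Fin (n + 1)) B)) := by
  have : IsDomain B := Pop.reg_domain
  have : ∀ n, IsDomain (MvPowerSeries (Fin n) B) := fun _ => NoZeroDivisors.to_isDomain _
  have hX : (X 0 : MvPowerSeries (Fin (n + 1)) B) ∈ (K _ (maximalIdeal B)).primeCompl := fun e =>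
    (maximalIdeal.isMaximal B).ne_top ((Ideal.eq_top_iff_one _).2
      (by simpa [coeff_X] using mem_K.1 e (Finsupp.single 0 1)))
  have h0 := isLoc_loc (zero_notMem_powers (mul_ne_zero (C_ne (σ := Fin (n + 1)) h)
    (pow_ne_zero k fun e : X 0 = 0 => hX (e ▸ zero_mem _))))
  rcases k with _ | k
  · exact AllFree.of_poly (poly_mv hd h (h0.mono (by simpa using le_Sat _) (by simpa using h0.unit)))
  intro ι _ e he
  obtain ⟨D, _, ψ, h1, h2⟩ := generic (σ := Fin (n + 1)) hd h
  obtain ⟨_, hm, hq⟩ := (h1.af (AllFree.of_poly h2)).qfree h0 (Submonoid.powers_le.2 (Sat.of_mem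
    (mul_mem (Submonoid.mem_sup_right (Submonoid.mem_powers _))
      (pow_mem (Submonoid.mem_sup_left hX) _)))) he
  obtain ⟨g, hg, s, hs, rfl⟩ := Submonoid.mem_sup.1 hm
  obtain ⟨L, _, _, φ, hφ⟩ := exists_loc (zero_notMem_powers (C_ne (σ := Fin (n + 1)) h))
  obtain ⟨A, _, _, α, hα⟩ := exists_loc (zero_notMem_powers (C_ne (σ := Fin n) h))
  obtain ⟨j, F, h3, h4, h5, h6⟩ := data hφ hα (coeff_ne hg)
  have h7 : Submonoid.powers (C (∏ i, r i)) ≤ Sat (.powers (C (∏ i, r i) * X 0 ^ (k + 1) :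
      MvPowerSeries (Fin (n + 1)) B)) :=
    Submonoid.powers_le.2 ⟨_, Submonoid.mem_powers _, dvd_mul_right _ _⟩
  obtain ⟨β, hβ⟩ := hφ.lift _ fun m hm => h0.unit' (h7 hm)
  rw [← hβ] at h0 hq
  refine free_laurent h3 h4 (poly_mv hd h hα) (hφ.of_comp h0 (Submonoid.powers_le.2 ?_) ?_) he
    (hq.of_dvd ?_)
  · rw [Submonoid.mem_comap, map_mul, map_pow, ← h6]
    exact mul_mem (Sat.of_unit (hφ.unit _ (Submonoid.mem_powers _)))
      (pow_mem (Sat.of_mem (Submonoid.mem_powers _)) _)
  · rintro _ ⟨l, rfl⟩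
    refine ⟨_, ⟨l, rfl⟩, ?_⟩
    simp only [map_pow, map_mul, h6]
    exact pow_dvd_pow_of_dvd ((dvd_pow_self _ k.succ_ne_zero).mul_left _) l
  · rw [RingHom.comp_apply, map_mul]
    exact map_dvd β ((hφ.unit s hs).mul_right_dvd.2 h5)

end Pool.Agent.Lib.MP_a37f0b_ag.PS
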