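import Pool.Agent.Lib.MP_a37f0b_ag.Smooth
import Mathlib.Algebra.Polynomial.Bivariate
import Mathlib.RingTheory.AdicCompletion.Noetherian
import Mathlib.RingTheory.AdicCompletion.Topology
import Mathlib.RingTheory.MvPowerSeries.Equiv
import Mathlib.RingTheory.MvPowerSeries.Inverse
import Mathlib.RingTheory.MvPowerSeries.NoZeroDivisors
import Mathlib.RingTheory.MvPowerSeries.Substitution
import Mathlib.RingTheory.PowerSeries.WeierstrassPreparation

/-! Weierstrass reduction for projective modules over localized power series rings. -/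

open IsLocalRing

namespace Pool.Agent.Lib.MP_a37f0b_ag.PS

section cpl

variable {A : Type} [CommRing A] [IsLocalRing A]

theorem mem_max (g : PowerSeries A) :
    g ∈ maximalIdeal (PowerSeries A) ↔ PowerSeries.constantCoeff g ∈ maximalIdeal A := by
  rw [mem_maximalIdeal, mem_maximalIdeal, mem_nonunits_iff, mem_nonunits_iff,
    PowerSeries.isUnit_iff_constantCoeff]

theorem mem_pow (n : ℕ) (g : PowerSeries A) : g ∈ maximalIdeal (PowerSeries A) ^ n ↔
    ∀ i, PowerSeries.coeff i g ∈ maximalIdeal A ^ (n - i) := by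
  induction n generalizing g with
  | zero => simp
  | succ n ih =>
    constructor
    · intro hg
      rw [pow_succ'] at hg
      refine Submodule.mul_induction_on hg (fun a ha b hb i => ?_) fun a b ha hb i => ?_
      · rw [PowerSeries.coeff_mul]
        refine Ideal.sum_mem _ fun q hq => ?_
        have h1 := Finset.HasAntidiagonal.mem_antidiagonal.1 hq
        have h2 := (ih b).1 hb q.2
        rcases Nat.eq_zero_or_pos q.1 with h | h
        · have h3 : PowerSeries.coeff q.1 a ∈ maximalIdeal A := by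
            rw [h, PowerSeries.coeff_zero_eq_constantCoeff_apply]
            exact (mem_max a).1 ha
          have h4 := Ideal.mul_mem_mul h3 h2
          rw [← pow_succ'] at h4
          exact Ideal.pow_le_pow_right (by omega) h4
        · exact Ideal.mul_mem_left _ _ (Ideal.pow_le_pow_right (by omega) h2)
      · rw [map_add]
        exact add_mem (ha i) (hb i)
    · intro hg
      rw [g.eq_X_mul_shift_add_const]
      refine add_mem ?_ ?_
      · rw [pow_succ']
        refine Ideal.mul_mem_mul ((mem_max _).2 (by simp)) ((ih _).2 fun i => ?_)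
        simpa using hg (i + 1)
      · have h1 : (maximalIdeal A).map (PowerSeries.C (R := A)) ≤ maximalIdeal (PowerSeries A) :=
          Ideal.map_le_iff_le_comap.2 fun a ha => (mem_max _).2 (by simpa using ha)
        refine Ideal.pow_right_mono h1 _ ?_
        rw [← Ideal.map_pow]
        exact Ideal.mem_map_of_mem _ (by simpa using hg 0)

theorem pre_ps [IsPrecomplete (maximalIdeal A) A] :
    IsPrecomplete (maximalIdeal (PowerSeries A)) (PowerSeries A) := by
  refine ⟨fun f hf => ?_⟩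
  simp only [SModEq.sub_mem, smul_eq_mul, Ideal.mul_top] at hf ⊢
  have key : ∀ i, ∃ L : A, ∀ n, PowerSeries.coeff i (f (n + i)) - L ∈ maximalIdeal A ^ n := by
    intro i
    have := IsPrecomplete.prec (I := maximalIdeal A) (M := A) inferInstance
      (f := fun n => PowerSeries.coeff i (f (n + i))) (fun {m n} h => by
        simp only [SModEq.sub_mem, smul_eq_mul, Ideal.mul_top]
        simpa using (mem_pow _ _).1 (hf (Nat.add_le_add_right h i)) i)
    simpa only [SModEq.sub_mem, smul_eq_mul, Ideal.mul_top] using this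
  choose L hL using key
  refine ⟨PowerSeries.mk L, fun n => (mem_pow _ _).2 fun i => ?_⟩
  rcases le_total n i with h | h
  · simp [Nat.sub_eq_zero_of_le h]
  · simpa [Nat.sub_add_cancel h] using hL i (n - i)

theorem pre_equiv {D : Type} [CommRing D] [IsLocalRing D] (e : A ≃+* D)
    (h : IsPrecomplete (maximalIdeal A) A) : IsPrecomplete (maximalIdeal D) D := by
  rw [← map_ringEquiv_maximalIdeal e]
  exact (IsPrecomplete.congr_ringEquiv _ e).2 h

theorem pre_mv [IsPrecomplete (maximalIdeal A) A] (n : ℕ) :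
    IsPrecomplete (maximalIdeal (MvPowerSeries (Fin n) A)) (MvPowerSeries (Fin n) A) := by
  induction n with
  | zero => exact pre_equiv (MvPowerSeries.isEmptyEquiv (Fin 0) A).toRingEquiv.symm ‹_›
  | succ n ih => exact pre_equiv (MvPowerSeries.finSuccEquiv A n).toRingEquiv.symm pre_ps

/-- One variable. -/
theorem weier [IsDomain A] [IsAdicComplete (maximalIdeal A) A] {ρ : A} {L A' : Type}
    [CommRing L] [CommRing A'] {φ : PowerSeries A →+* L}
    (hφ : IsLoc φ (.powers (PowerSeries.C ρ))) {α : A →+* A'} (hα : IsLoc α (.powers ρ))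
    {g : PowerSeries A} (hg : g.map (residue A) ≠ 0) :
    ∃ (j : Polynomial A' →+* L) (F : Polynomial A'), F.Monic ∧ An j F ∧ φ g ∣ j F ∧
      j Polynomial.X = φ PowerSeries.X := by
  obtain ⟨F, u, H⟩ := g.exists_isWeierstrassFactorization hg
  let c := Polynomial.coeToPowerSeries.ringHom (R := A)
  let E := H.isDistinguishedAt.algEquivQuotient
  have hE : ∀ a : Polynomial A, E (Ideal.Quotient.mk _ a) = Ideal.Quotient.mk _ (c a) :=
    fun _ => rfl
  have h1 : An c F := ⟨Polynomial.coe_injective A, fun b => by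
    obtain ⟨a, ha⟩ := E.surjective (Ideal.Quotient.mk _ b)
    obtain ⟨a, rfl⟩ := Ideal.Quotient.mk_surjective a
    obtain ⟨b', hb⟩ := Ideal.mem_span_singleton.1 (Ideal.Quotient.eq.1 (ha.symm.trans (hE a)))
    exact ⟨a, b', eq_add_of_sub_eq' hb⟩, fun a ha => by
    rw [← Ideal.mem_span_singleton, ← Ideal.Quotient.eq_zero_iff_mem,
      ← map_eq_zero_iff E E.injective, hE, Ideal.Quotient.eq_zero_iff_mem]
    exact Ideal.mem_span_singleton.2 ha⟩
  have hc : ∀ a, c (Polynomial.C a) = PowerSeries.C a := fun a => Polynomial.coe_C a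
  obtain ⟨j, hj⟩ := hα.poly.lift (φ.comp c) (by
    rintro _ ⟨_, ⟨k, rfl⟩, rfl⟩
    exact hφ.unit _ ⟨k, by simp only [hc, map_pow]⟩)
  refine ⟨j, _, H.isDistinguishedAt.monic.map α, h1.loc hα.poly hφ (by
    rintro _ ⟨k, rfl⟩
    exact Sat.of_mem ⟨_, ⟨_, ⟨k, rfl⟩, rfl⟩, by simp only [hc, map_pow]⟩) hj, ?_, ?_⟩
  · rw [show j (F.map α) = φ (c F) from RingHom.congr_fun hj F, H.eq_mul, map_mul]
    exact (H.isUnit.map φ).mul_right_dvd.2 dvd_rfl
  · simpa [c] using RingHom.congr_fun hj Polynomial.X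

end cpl

/-- Weights that isolate one exponent. -/
theorem weights (n : ℕ) : ∀ S : Set (Fin n → ℕ), S.Nonempty → ∃ w : Fin n → ℕ,
    (∀ i, 1 ≤ w i) ∧ (∀ i : Fin n, i.1 = 0 → w i = 1) ∧
      ∃ a ∈ S, ∀ b ∈ S, ∑ i, b i * w i ≤ ∑ i, a i * w i → b = a := by
  induction n with
  | zero =>
    rintro S ⟨a, ha⟩
    exact ⟨0, fun i => i.elim0, fun i => i.elim0, a, ha, fun b _ _ => Subsingleton.elim _ _⟩
  | succ n ih =>
    classical
    rintro S ⟨a0, ha0⟩
    have h1 : ∃ j, ∃ b ∈ S, b (Fin.last n) = j := ⟨_, a0, ha0, rfl⟩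
    obtain ⟨a1, ha1, h2⟩ := Nat.find_spec h1
    obtain ⟨w, w1, w2, _, ⟨a, ⟨ha, h3⟩, rfl⟩, h4⟩ := ih
      (Fin.init '' {b | b ∈ S ∧ b (Fin.last n) = Nat.find h1}) ⟨_, a1, ⟨ha1, h2⟩, rfl⟩
    refine ⟨Fin.snoc w (∑ i, Fin.init a i * w i + 1), fun i => ?_, fun i => ?_, a, ha,
      fun b hb h => ?_⟩
    · refine Fin.lastCases ?_ (fun i => ?_) i
      · simp
      · simpa using w1 i
    · refine Fin.lastCases (fun h => ?_) (fun i h => ?_) i
      · rw [Fin.snoc_last]
        obtain rfl : n = 0 := h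
        simp
      · simpa using w2 i h
    · simp only [Fin.sum_univ_castSucc, Fin.snoc_castSucc, Fin.snoc_last] at h
      have h5 : a (Fin.last n) ≤ b (Fin.last n) := h3 ▸ Nat.find_min' h1 ⟨b, hb, rfl⟩
      have e : ∀ c : Fin (n + 1) → ℕ, ∑ i, Fin.init c i * w i = ∑ i : Fin n, c i.castSucc * w i :=
        fun _ => rfl
      have h6 : b (Fin.last n) = a (Fin.last n) := by
        by_contra h7
        have h8 := Nat.mul_le_mul_right (∑ i, Fin.init a i * w i + 1)
          (show a (Fin.last n) + 1 ≤ b (Fin.last n) by omega)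
        rw [← e, ← e] at h
        nlinarith [Nat.zero_le (∑ i, Fin.init b i * w i)]
      rw [h6, add_le_add_iff_right] at h
      rw [← Fin.snoc_init_self b, ← Fin.snoc_init_self a, h6,
        h4 _ ⟨b, ⟨hb, h6.trans h3⟩, rfl⟩ h]

section shear

open MvPowerSeries

variable {A : Type} [CommRing A] {n : ℕ}

/-- The shear substitution. -/
noncomputable def sh (c : A) (w : Fin (n + 1) → ℕ) :
    Fin (n + 1) → MvPowerSeries (Fin (n + 1)) A :=
  Fin.cons (X 0) fun i => X i.succ + C c * X 0 ^ w i.succ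

variable {w : Fin (n + 1) → ℕ}

theorem has (c : A) (hw : ∀ i, 1 ≤ w i) : HasSubst (sh c w) :=
  hasSubst_of_constantCoeff_zero fun o => by
    refine Fin.cases ?_ (fun i => ?_) o
    · simp [sh]
    · simp [sh, zero_pow (Nat.ne_of_gt (hw i.succ))]

theorem sh_inv (c : A) (hw : ∀ i, 1 ≤ w i) (f : MvPowerSeries (Fin (n + 1)) A) :
    substAlgHom (R := A) (has (-c) hw) (substAlgHom (R := A) (has c hw) f) = f := by
  have h1 : (fun s => subst (R := A) (sh (-c) w) (sh c w s)) = X := by
    funext o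
    rw [← substAlgHom_apply (has (-c) hw)]
    refine Fin.cases ?_ (fun i => ?_) o
    · exact substAlgHom_X _ _
    · have e : ∀ a : A, substAlgHom (R := A) (has (-c) hw) (C a) = C a := fun a =>
        (substAlgHom (R := A) (has (-c) hw)).commutes a
      change substAlgHom (R := A) (has (-c) hw) (X i.succ + C c * X 0 ^ w i.succ) = _
      rw [map_add, map_mul, map_pow, substAlgHom_X, substAlgHom_X, e]
      simp [sh]
  rw [substAlgHom_apply, substAlgHom_apply, subst_comp_subst_apply (has c hw) (has (-c) hw), h1,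
    subst_self, id]

/-- The shear automorphism. -/
noncomputable def aut (hw : ∀ i, 1 ≤ w i) :
    MvPowerSeries (Fin (n + 1)) A ≃ₐ[A] MvPowerSeries (Fin (n + 1)) A :=
  AlgEquiv.ofAlgHom (substAlgHom (has 1 hw)) (substAlgHom (has (-1) hw))
    (AlgHom.ext fun f => by simpa using sh_inv (-1 : A) hw f) (AlgHom.ext fun f => sh_inv 1 hw f)

theorem coeff_ax (k : ℕ) (g : MvPowerSeries (Fin (n + 1)) A) : coeff (Finsupp.cons k 0) g =
    PowerSeries.coeff k (PowerSeries.map constantCoeff (finSuccEquiv A n g)) := by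
  rw [PowerSeries.coeff_map, ← coeff_zero_eq_constantCoeff_apply, coeff_coeff_finSuccEquiv]

theorem coeff_prod (h0 : w 0 = 1) (k : ℕ) (d : Fin (n + 1) →₀ ℕ) :
    coeff (Finsupp.cons k 0) (d.prod fun s e => sh (1 : A) w s ^ e) =
      if k = ∑ i, d i * w i then 1 else 0 := by
  have e : ∀ s, PowerSeries.map constantCoeff (finSuccEquiv A n (sh (1 : A) w s)) =
      PowerSeries.X ^ w s := fun s => by
    refine Fin.cases ?_ (fun i => ?_) s
    · simp [sh, h0]
    · simp [sh]
  rw [coeff_ax, Finsupp.prod_fintype _ _ (by simp), map_prod, map_prod]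
  simp only [map_pow, e, ← pow_mul, Finset.prod_pow_eq_pow_sum, PowerSeries.coeff_X_pow, mul_comm]

theorem shear {k : Type} [CommRing k] (φ : A →+* k) (f : MvPowerSeries (Fin (n + 1)) A)
    (hf : ∃ d, φ (coeff d f) ≠ 0) : ∃ (ε : MvPowerSeries (Fin (n + 1)) A ≃ₐ[A]
      MvPowerSeries (Fin (n + 1)) A) (j : ℕ), ε (X 0) = X 0 ∧
        φ (coeff (Finsupp.cons j 0) (ε f)) ≠ 0 := by
  obtain ⟨d, hd⟩ := hf
  obtain ⟨w, w1, w2, _, ⟨a, ha, rfl⟩, h⟩ := weights (n + 1)
    ((fun d : Fin (n + 1) →₀ ℕ => ⇑d) '' {d | φ (coeff d f) ≠ 0}) ⟨_, d, hd, rfl⟩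
  refine ⟨aut w1, ∑ i, a i * w i, substAlgHom_X (has 1 w1) 0, ?_⟩
  change φ (coeff _ (substAlgHom (R := A) (has 1 w1) f)) ≠ 0
  rw [substAlgHom_apply, coeff_subst (has 1 w1),
    map_finsum φ (coeff_subst_finite (has 1 w1) f _), finsum_eq_single _ a]
  · rw [coeff_prod (w2 0 rfl), if_pos rfl, smul_eq_mul, mul_one]
    exact ha
  · intro b hb
    rw [coeff_prod (w2 0 rfl)]
    split_ifs with h4
    · by_contra h5
      exact hb (DFunLike.coe_injective (h _ ⟨b, by simpa using h5, rfl⟩ h4.ge))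
    · simp

/-- Weierstrass data for a series with nonzero reduction. -/
theorem data [IsDomain A] [IsLocalRing A] [IsNoetherianRing A] [IsPrecomplete (maximalIdeal A) A]
    {ρ : A} {L A' : Type} [CommRing L] [CommRing A'] {φ : MvPowerSeries (Fin (n + 1)) A →+* L}
    (hφ : IsLoc φ (.powers (C ρ))) {α : MvPowerSeries (Fin n) A →+* A'}
    (hα : IsLoc α (.powers (C ρ))) {g : MvPowerSeries (Fin (n + 1)) A}
    (hg : ∃ d, residue A (coeff d g) ≠ 0) :
    ∃ (j : Polynomial A' →+* L) (F : Polynomial A'), F.Monic ∧ An j F ∧ φ g ∣ j F ∧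
      j Polynomial.X = φ (X 0) := by
  obtain ⟨ε, j, h0, hj⟩ := shear (residue A) g hg
  have := pre_mv (A := A) n
  have : IsAdicComplete (maximalIdeal (MvPowerSeries (Fin n) A)) (MvPowerSeries (Fin n) A) := {}
  have : IsDomain (MvPowerSeries (Fin n) A) := NoZeroDivisors.to_isDomain _
  let E := (ε.trans (finSuccEquiv A n)).toRingEquiv
  have hE : E (C ρ) = PowerSeries.C (C ρ) :=
    (congrArg (finSuccEquiv A n) (ε.commutes ρ)).trans (finSuccEquiv_C ρ)
  have hE' : E.symm (PowerSeries.C (C ρ)) = C ρ := E.symm_apply_eq.2 hE.symm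
  have hX : E.symm PowerSeries.X = X 0 := E.symm_apply_eq.2
    ((congrArg (finSuccEquiv A n) h0).trans finSuccEquiv_X_zero).symm
  have := weier (ρ := (C ρ : MvPowerSeries (Fin n) A)) (φ := φ.comp E.symm)
    ((isLoc_equiv E.symm).comp hφ ?_ bot_le ?_) hα (g := E g) fun h => hj ?_
  · simpa [hX] using this
  · rintro _ ⟨k, rfl⟩
    exact Sat.of_mem ⟨k, by simp [hE']⟩
  · rintro _ ⟨k, rfl⟩
    exact ⟨_, ⟨k, rfl⟩, by simp [hE']⟩
  · have h9 := congrArg (PowerSeries.coeff j) h
    rw [PowerSeries.coeff_map, map_zero, residue_eq_zero_iff, mem_maximalIdeal, mem_nonunits_iff,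
      isUnit_iff_constantCoeff] at h9
    rw [residue_eq_zero_iff, coeff_ax, PowerSeries.coeff_map]
    exact h9

end shear

section desc

open Polynomial

variable {A L : Type} [CommRing A] [CommRing L] [IsDomain A] [IsDomain L] {j : A[X] →+* L}
  {F : A[X]} {ι : Type} [Fintype ι]

omit [IsDomain L] in
theorem an_poly {D : Type} [CommRing D] {j : D →+* L} {F : D} (h : An j F) :
    An (mapRingHom j) (C F) :=
  ⟨map_injective _ h.inj, fun b => by
    induction b using Polynomial.induction_on' with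
    | monomial n b =>
      obtain ⟨a, b', rfl⟩ := h.surj b
      exact ⟨monomial n a, monomial n b', by simp [C_mul_monomial]⟩
    | add p q hp hq =>
      obtain ⟨a, b, rfl⟩ := hp
      obtain ⟨a', b', rfl⟩ := hq
      exact ⟨a + a', b + b', by rw [map_add]; ring⟩,
    fun a ha => by
      rw [coe_mapRingHom, map_C, C_dvd_iff_dvd_coeff] at ha
      exact (C_dvd_iff_dvd_coeff _ _).2 fun i => h.dvd _ (coeff_map j i ▸ ha i)⟩

theorem free_poly (hF : F.Monic) (h : An j F) {e : Matrix ι ι L[X]} (he : e * e = e)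
    (hq : QFree (C (j F)) e) : Free e := by
  obtain ⟨μ, _, d, hd, h3, k, h4⟩ := (an_poly h).desc (C_ne_zero.2 hF.ne_zero) he (by simpa using hq)
  let s := (Bivariate.swap (R := A)).toRingEquiv.toRingHom
  have h5 := (horrocks (idem_map hd s) ((hF.map C).pow k)
    (by simpa [s, Bivariate.swap_C] using h4.map s)).map s
  rw [map_comp', show s.comp s = RingHom.id _ from RingHom.ext Bivariate.swap_swap_apply] at h5
  exact Free.of_eqv h3 he (h5.map _)

theorem free_laurent (hF : F.Monic) (h : An j F) (H : AllFree A[X]) :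
    ∀ {L' : Type} [CommRing L'] {β : L →+* L'}, IsLoc β (.powers (j X)) →
      ∀ {e : Matrix ι ι L'}, e * e = e → QFree (β (j F)) e → Free e := by
  intro L' _ β hβ e he hq
  have := hβ.domain
  obtain ⟨D, _, _, δ, hδ⟩ := exists_loc (zero_notMem_powers (X_ne_zero (R := A)))
  obtain ⟨j', hj⟩ := hδ.lift (β.comp j) (by
    rintro _ ⟨k, rfl⟩
    exact hβ.unit _ ⟨k, (map_pow j _ _).symm⟩)
  obtain ⟨μ, _, d, hd, h3, k, h4⟩ := (h.loc hδ hβ (by
    rintro _ ⟨k, rfl⟩
    exact Sat.of_mem ⟨_, ⟨k, rfl⟩, map_pow j _ _⟩) hj).desc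
    ((map_ne_zero_iff _ hδ.inj).2 hF.ne_zero) he
    (by rwa [show j' (δ F) = β (j F) from RingHom.congr_fun hj F])
  obtain ⟨ψ, -, -, ν, _, d', hd', h5, -⟩ := hδ.extInf hd (hF.pow k) (by rwa [map_pow])
  exact Free.of_eqv h3 he ((Free.of_eqv h5 hd ((H ν d' hd').map ψ)).map j')

end desc

end Pool.Agent.Lib.MP_a37f0b_ag.PS
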